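import Pool.Agent.Helper71.RS.Ctwo

/-! # STRA: the group acts on the ring of invariants through a finite group -/

namespace Pool.Agent.Helper43.RS

open scoped ComplexConjugate nonZeroDivisors

lemma stra_div {n : ℕ} (χ : ℂˣ →* Multiplicative (Fin n → ℤ)) (c : ℂˣ) : χ c = 1 := by
  rw [← toAdd_eq_zero]
  funext i
  by_contra hne
  set z : ℤ := Multiplicative.toAdd (χ c) i with hz
  have hz0 : z ≠ 0 := hne
  obtain ⟨d, hd⟩ := IsAlgClosed.exists_pow_nat_eq (c : ℂ) (n := z.natAbs + 1) (Nat.succ_pos _)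
  have hd0 : d ≠ 0 := by
    rintro rfl
    rw [zero_pow (Nat.succ_ne_zero _)] at hd
    exact c.ne_zero hd.symm
  have h1 : c = (Units.mk0 d hd0) ^ (z.natAbs + 1) := Units.ext (by simp [hd])
  have h2 : z = ((z.natAbs + 1 : ℕ) : ℤ) * Multiplicative.toAdd (χ (Units.mk0 d hd0)) i := by
    have h3 := congrArg (fun u => Multiplicative.toAdd (χ u) i) h1
    simp only [map_pow, toAdd_pow, Pi.smul_apply] at h3
    rw [hz]
    simpa using h3
  set y := Multiplicative.toAdd (χ (Units.mk0 d hd0)) i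
  have hy : y ≠ 0 := by
    rintro h
    rw [h, mul_zero] at h2
    exact hz0 h2
  have h3 := congrArg Int.natAbs h2
  rw [Int.natAbs_mul, Int.natAbs_natCast] at h3
  have h4 : 0 < y.natAbs := Int.natAbs_pos.2 hy
  have h5 : z.natAbs + 1 ≤ (z.natAbs + 1) * y.natAbs := Nat.le_mul_of_pos_right _ h4
  omega

/-- the quotient of two elements with almost integral quotient -/
lemma stra_int {R : Type} [CommRing R] [IsDomain R] [IsIntegrallyClosed R] [IsNoetherianRing R]
    {c c' r : R} (hc : c ≠ 0) (hr : r ≠ 0) (x : ℕ → R) (h : ∀ n, c ^ n * x n = c' ^ n * r) :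
    ∃ w : R, c' = w * c := by
  set K := FractionRing R
  have hc' : algebraMap R K c ≠ 0 := by
    rwa [Ne, map_eq_zero_iff _ (IsFractionRing.injective R K)]
  set u : K := algebraMap R K c' / algebraMap R K c with hu
  have h1 : IsAlmostIntegral R u := by
    refine ⟨r, mem_nonZeroDivisors_of_ne_zero hr, fun n => ⟨x n, ?_⟩⟩
    rw [Algebra.smul_def, hu, div_pow, mul_div_assoc', eq_div_iff (pow_ne_zero n hc')]
    rw [← map_pow, ← map_mul, ← map_pow, ← map_mul, mul_comm (x n), h n, mul_comm]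
  have h2 : IsIntegral R u := h1.isIntegral
  obtain ⟨w, hw⟩ := IsIntegrallyClosed.isIntegral_iff.1 h2
  refine ⟨w, ?_⟩
  apply IsFractionRing.injective R K
  rw [map_mul, hw, hu, div_mul_cancel₀ _ hc']

theorem st_STRA (hKB : ST_KB) (hGEN : ST_GEN) (hUNITS : ST_UNITS) (hINV : ST_INV) :
    ST_STRA := by
  intro G _ H B R _ _ _ ρ hset hnc hfin
  have := hset.ic
  have := hset.ft
  have hnoeth : IsNoetherianRing R := Algebra.FiniteType.isNoetherianRing ℂ R
  have hcurve := hINV G H B R ρ hset hnc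
  obtain ⟨n, v, hv⟩ := hUNITS (invt ρ) hcurve
  obtain ⟨k, lam, r, hr, hr0, hgenr⟩ := hGEN G H hset.hopf hset.red B hset.solv hset.irrB R ρ
    hset.rat
  obtain ⟨t, ht, htc⟩ := hnc
  have hainv : ∀ (a : R ≃ₐ[ℂ] R) (x : R), a (a⁻¹ x) = x := fun a x => by
    rw [← AlgEquiv.mul_apply, mul_inv_cancel, AlgEquiv.one_apply]
  have hainv' : ∀ (a : R ≃ₐ[ℂ] R) (x : R), a⁻¹ (a x) = x := fun a x => by
    rw [← AlgEquiv.mul_apply, inv_mul_cancel, AlgEquiv.one_apply]
  let A₁ : Subgroup (R ≃ₐ[ℂ] R) :=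
    { carrier := {a | a ∈ eqAut ρ ∧ ∀ x ∈ invt ρ, a x = x}
      mul_mem' := by
        rintro a b ⟨ha, hc⟩ ⟨hb, hc'⟩
        refine ⟨mul_mem ha hb, fun x hx => ?_⟩
        rw [AlgEquiv.mul_apply, hc' x hx, hc x hx]
      one_mem' := ⟨one_mem _, fun x _ => rfl⟩
      inv_mem' := by
        rintro a ⟨ha, hc⟩
        refine ⟨inv_mem ha, fun x hx => ?_⟩
        apply a.injective
        rw [hainv, hc x hx] }
  have hA₁ : ∀ a, a ∈ A₁ ↔ a ∈ eqAut ρ ∧ ∀ x ∈ invt ρ, a x = x := fun a => Iff.rfl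
  have hidx : A₁.relIndex (eqAut ρ) ≠ 0 := by
    have hX : Finite {f : invt ρ → R | ∃ a ∈ eqAut ρ, ∀ r, f r = a r} := hfin.to_subtype
    refine com_relIndex (X := {f : invt ρ → R | ∃ a ∈ eqAut ρ, ∀ r, f r = a r})
      (fun a => ⟨fun r => (a : R ≃ₐ[ℂ] R) r, a, a.2, fun _ => rfl⟩) ?_
    rintro ⟨a, ha⟩ ⟨b, hb⟩ hab
    refine ⟨mul_mem (inv_mem ha) hb, fun x hx => ?_⟩
    have h1 := congrFun (congrArg Subtype.val hab) ⟨x, hx⟩
    simp only at h1
    rw [AlgEquiv.mul_apply]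
    apply a.injective
    rw [hainv, h1]
  -- multipliers
  have hmul0 : ∀ a ∈ A₁, ∀ i, ∃ w ∈ invt ρ, a (r i) = w * r i := by
    intro a ha i
    have ha' := (hA₁ a).1 ha
    have h1 := com_semi ha'.1 (hr i)
    obtain ⟨c, hc, c', hc', hc0, hcc⟩ := hKB G H hset.hopf hset.irr B R ρ hset.rat hset.cx t ht htc
      _ _ (com_ratInv h1 (hr i) (hr0 i))
    have h2 : ∀ n : ℕ, c ^ n * (a ^ n) (r i) = c' ^ n * r i := by
      intro n
      induction n with
      | zero => simp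
      | succ n ih =>
        have h3 := congrArg a ih
        rw [map_mul, map_mul, map_pow, map_pow, ha'.2 c hc, ha'.2 c' hc'] at h3
        rw [pow_succ' a, AlgEquiv.mul_apply, pow_succ, pow_succ, mul_right_comm, h3, mul_assoc,
          mul_comm (a (r i)) c, hcc, mul_assoc]
    obtain ⟨w, hw⟩ := stra_int hc0 (hr0 i) _ h2
    refine ⟨w, fun g => ?_, ?_⟩
    · have h3 := hc' g
      rw [hw, map_mul, hc g] at h3
      exact mul_right_cancel₀ hc0 h3
    · apply mul_left_cancel₀ hc0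
      rw [hcc, hw]
      ring
  have hmult : ∀ a : A₁, ∀ i, ∃ u : (invt ρ)ˣ,
      (a : R ≃ₐ[ℂ] R) (r i) = ((u : invt ρ) : R) * r i := by
    rintro ⟨a, ha⟩ i
    obtain ⟨w, hw, h1⟩ := hmul0 a ha i
    obtain ⟨w', hw', h2⟩ := hmul0 a⁻¹ (inv_mem ha) i
    have h3 := hainv a (r i)
    rw [h2, map_mul, ha.2 w' hw', h1] at h3
    have h4 : w * w' = 1 := by
      apply mul_right_cancel₀ (hr0 i)
      rw [one_mul]
      nth_rewrite 2 [← h3]
      ring
    refine ⟨⟨⟨w, hw⟩, ⟨w', hw'⟩, Subtype.ext h4, Subtype.ext ((mul_comm w' w).trans h4)⟩, h1⟩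
  choose U hU using hmult
  have hUmul : ∀ a b : A₁, ∀ i, U (a * b) i = U a i * U b i := by
    intro a b i
    apply Units.ext
    apply Subtype.ext
    apply mul_right_cancel₀ (hr0 i)
    rw [← hU]
    change (a : R ≃ₐ[ℂ] R) ((b : R ≃ₐ[ℂ] R) (r i)) = _
    rw [hU b i, map_mul, a.2.2 _ (U b i : invt ρ).2, hU a i]
    push_cast
    ring
  let φ : A₁ →* Multiplicative (Fin (k * n) → ℤ) := MonoidHom.mk'
    (fun a => Multiplicative.ofAdd (fun j => Multiplicative.toAdd
      (v (U a (finProdFinEquiv.symm j).1)) (finProdFinEquiv.symm j).2))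
    (by
      intro a b
      rw [← ofAdd_add]
      congr 1
      ext j
      simp only [hUmul, map_mul, toAdd_mul, Pi.add_apply])
  have hφ1 : ∀ a, φ a = 1 ↔ ∀ i, v (U a i) = 1 := by
    intro a
    change Multiplicative.ofAdd _ = 1 ↔ _
    rw [ofAdd_eq_one]
    constructor
    · intro h i
      rw [← toAdd_eq_zero]
      funext j
      have h1 := congrFun h (finProdFinEquiv (i, j))
      simpa using h1
    · intro h
      funext j
      simp only [h, toAdd_one, Pi.zero_apply]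
  have hφ2 : ∀ a, φ a = 1 ↔ ∀ i, ∃ c : ℂ, ((U a i : invt ρ) : R) = algebraMap ℂ R c := by
    intro a
    rw [hφ1]
    refine forall_congr' (fun i => ⟨fun h => ?_, ?_⟩)
    · obtain ⟨c, hc⟩ := hv _ h
      exact ⟨c, congrArg Subtype.val hc⟩
    · rintro ⟨c, hc⟩
      have hc0 : c ≠ 0 := by
        rintro rfl
        rw [map_zero] at hc
        have h1 : (U a i : invt ρ) = 0 := Subtype.ext hc
        exact (U a i).ne_zero h1
      have h1 : U a i = Units.map (algebraMap ℂ (invt ρ)).toMonoidHom (Units.mk0 c hc0) := by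
        apply Units.ext
        apply Subtype.ext
        rw [hc]
        rfl
      rw [h1]
      exact stra_div (v.comp (Units.map (algebraMap ℂ (invt ρ)).toMonoidHom)) (Units.mk0 c hc0)
  -- generators of the ring of invariants
  obtain ⟨S, hS⟩ := hcurve.ft.out
  set S' : Set R := (invt ρ).val '' (S : Set (invt ρ)) with hS'
  have hS'f : S'.Finite := S.finite_toSet.image _
  have hS'm : ∀ x ∈ S', x ∈ invt ρ := by
    rintro x ⟨y, -, rfl⟩
    exact y.2
  have hS'g : ∀ x ∈ invt ρ, x ∈ Algebra.adjoin ℂ S' := by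
    intro x hx
    have h1 : (⟨x, hx⟩ : invt ρ) ∈ Algebra.adjoin ℂ (S : Set (invt ρ)) := by rw [hS]; trivial
    have h2 : (invt ρ).val ⟨x, hx⟩ ∈ (Algebra.adjoin ℂ (S : Set (invt ρ))).map (invt ρ).val :=
      ⟨_, h1, rfl⟩
    rw [AlgHom.map_adjoin] at h2
    exact h2
  set V : Submodule ℂ R := (⨆ i, com_gsp ρ (r i)) ⊔ Submodule.span ℂ S' with hV
  have hVf : FiniteDimensional ℂ V := by
    have h1 : ∀ i, FiniteDimensional ℂ (com_gsp ρ (r i)) := fun i => com_gsp_fd hset.rat _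
    have h2 : FiniteDimensional ℂ (Submodule.span ℂ S') :=
      FiniteDimensional.span_of_finite ℂ hS'f
    rw [hV]
    infer_instance
  have hSV : ∀ x ∈ S', x ∈ V := fun x hx =>
    Submodule.mem_sup_right (Submodule.subset_span hx)
  have hgV : ∀ i g, ρ g (r i) ∈ V := fun i g =>
    Submodule.mem_sup_left (Submodule.mem_iSup_of_mem i (com_gsp_mem _ _))
  have hVst : ∀ a ∈ A₁, (∀ i, ∃ c : ℂ, a (r i) = c • r i) → ∀ v ∈ V, a v ∈ V := by
    intro a ha hai
    change V ≤ V.comap a.toLinearMap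
    refine sup_le (iSup_le fun i => ?_) (Submodule.span_le.2 ?_)
    · intro v hv
      obtain ⟨c, hc⟩ := hai i
      exact Submodule.mem_sup_left (Submodule.mem_iSup_of_mem i (com_gsp_stable ha.1 hc v hv))
    · intro x hx
      change a x ∈ V
      rw [ha.2 x (hS'm x hx)]
      exact hSV x hx
  have hVgen : Algebra.adjoin ℂ (V : Set R) = ⊤ := by
    rw [eq_top_iff, ← hgenr]
    refine Algebra.adjoin_le ?_
    rintro x ⟨g, i, rfl⟩
    exact Algebra.subset_adjoin (hgV i g)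
  have hconst : ∀ a : A₁, (∀ i, ∃ c : ℂ, ((U a i : invt ρ) : R) = algebraMap ℂ R c) →
      ∀ i, ∃ c : ℂ, (a : R ≃ₐ[ℂ] R) (r i) = c • r i := by
    intro a h i
    obtain ⟨c, hc⟩ := h i
    exact ⟨c, by rw [hU, hc, Algebra.smul_def]⟩
  have hφ : ∀ a : A₁, φ a = 1 ↔ LocFin (a : R ≃ₐ[ℂ] R) := by
    intro a
    rw [hφ2]
    constructor
    · intro h
      exact com_locFin_of_gen hVf hVgen (hVst a a.2 (hconst a h))
    · intro h i
      obtain ⟨W, hW1, hWf, hW⟩ := h (r i)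
      refine com_dep hWf (hr0 i) (fun m => ?_)
      rw [← com_pow_apply (a.2.2 _ (U a i : invt ρ).2) (hU a i) m]
      exact com_pow_mem hW hW1 m
  let K : AffineSubspace ℂ (V →ₗ[ℂ] R) :=
    { carrier := {h | ∀ w : V, (w : R) ∈ S' → h w = w}
      smul_vsub_vadd_mem' := by
        intro c p q s hp hq hs w hw
        simp only [vsub_eq_sub, vadd_eq_add, LinearMap.add_apply, LinearMap.smul_apply,
          LinearMap.sub_apply]
        rw [hp w hw, hq w hw, hs w hw, sub_self, smul_zero, zero_add] }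
  have hKmem : ∀ h : V →ₗ[ℂ] R, h ∈ K ↔ ∀ w : V, (w : R) ∈ S' → h w = w := fun h => Iff.rfl
  refine com_assemble A₁ (fun a ha => ha.1) hidx (k * n) φ hφ ?_ V hVf hVgen K ?_
  · intro ψ hψ a a' h ha
    refine ⟨com_compat_eqAut hψ ha.1 h, fun x hx => ?_⟩
    have h1 : ψ.symm x ∈ invt ρ := by
      rw [← com_compat_invt hψ, RingEquiv.apply_symm_apply]; exact hx
    rw [com_compat_surj h, ha.2 _ h1, RingEquiv.apply_symm_apply]
  · intro a ha
    rw [hKmem]
    constructor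
    · rintro ⟨ha1, hl⟩
      refine ⟨hVst a ha1 (hconst ⟨a, ha1⟩ ((hφ2 ⟨a, ha1⟩).1 ((hφ ⟨a, ha1⟩).2 hl))), ?_⟩
      intro w hw
      exact ha1.2 w (hS'm w hw)
    · rintro ⟨h1, h2⟩
      refine ⟨⟨ha, fun x hx => ?_⟩, com_locFin_of_gen hVf hVgen h1⟩
      have h3 := hS'g x hx
      clear hx
      induction h3 using Algebra.adjoin_induction with
      | mem x hx' => exact h2 ⟨x, hSV x hx'⟩ hx'
      | algebraMap c => exact a.commutes c
      | add x y hx' hy' h4 h5 => rw [map_add, h4, h5]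
      | mul x y hx' hy' h4 h5 => rw [map_mul, h4, h5]

end Pool.Agent.Helper43.RS
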