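import Pool.Agent.Helper71.RS.COM

/-! # STRB: the ring of invariants is a polynomial ring -/

namespace Pool.Agent.Helper43.RS

open scoped ComplexConjugate

theorem st_STRB (hKB : ST_KB) (hGEN : ST_GEN) (hCOV : ST_COV) : ST_STRB := by
  intro G _ H B R _ _ _ ρ hset ⟨e⟩
  have := hset.ic
  have := hset.ft
  set t : invt ρ := e.symm Polynomial.X with ht
  have hev : ∀ f : invt ρ, f = Polynomial.aeval t (e f) := by
    intro f
    apply e.injective
    change e f = e.toAlgHom (Polynomial.aeval t (e f))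
    rw [← Polynomial.aeval_algHom_apply]
    simp [ht]
  have hevR : ∀ f ∈ invt ρ, ∃ F : Polynomial ℂ, f = Polynomial.aeval (t : R) F := by
    intro f hf
    refine ⟨e ⟨f, hf⟩, ?_⟩
    have h1 := congrArg (invt ρ).val (hev ⟨f, hf⟩)
    rw [← Polynomial.aeval_algHom_apply] at h1
    exact h1
  have hnc : ∃ t ∈ invt ρ, ∀ c : ℂ, t ≠ algebraMap ℂ R c := by
    refine ⟨t, t.2, fun c hc => ?_⟩
    have h1 : t = algebraMap ℂ (invt ρ) c := Subtype.ext hc
    have h2 := congrArg e h1
    rw [ht, AlgEquiv.apply_symm_apply, AlgEquiv.commutes] at h2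
    have h3 := congrArg Polynomial.natDegree h2
    simp at h3
  have hPID : IsPrincipalIdealRing (invt ρ) :=
    IsPrincipalIdealRing.of_surjective (e.symm : Polynomial ℂ →+* invt ρ) e.symm.surjective
  obtain ⟨k, lam, r, hr, hr0, hgenr⟩ := hGEN G H hset.hopf hset.red B hset.solv hset.irrB R ρ
    hset.rat
  choose ee hee hee0 heegen using fun i =>
    com_princ hset hCOV hKB hnc hPID (lam i) (r i) (hr i) (hr0 i)
  -- multipliers are constants
  have hmult : ∀ a ∈ eqAut ρ, ∀ i, ∃ c : ℂ, a (ee i) = c • ee i := by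
    intro a ha i
    obtain ⟨x, y, hxy, hax⟩ := com_unit (hee i) (hee0 i) (heegen i) ha
    have hu : IsUnit (e x) := by
      refine IsUnit.of_mul_eq_one (e y) ?_
      rw [← map_mul, hxy, map_one]
    obtain ⟨c, -, hc⟩ := Polynomial.isUnit_iff.1 hu
    refine ⟨c, ?_⟩
    have hx : x = algebraMap ℂ (invt ρ) c := by
      apply e.injective
      rw [AlgEquiv.commutes, ← hc]
      rfl
    rw [hax, hx, Algebra.smul_def]
    rfl
  -- the action on `t`
  have hat : ∀ a ∈ eqAut ρ, ∃ α β : ℂ, a (t : R) = α • (t : R) + β • (1 : R) := by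
    intro a ha
    set p := e ⟨a t, com_invt ha t.2⟩ with hp
    have hai : a⁻¹ ∈ eqAut ρ := inv_mem ha
    set q := e ⟨a⁻¹ t, com_invt hai t.2⟩ with hq
    have h1 : a (t : R) = Polynomial.aeval (t : R) p := by
      have h1 := congrArg (invt ρ).val (hev ⟨a t, com_invt ha t.2⟩)
      rw [← Polynomial.aeval_algHom_apply] at h1
      exact h1
    have h2 : a⁻¹ (t : R) = Polynomial.aeval (t : R) q := by
      have h1 := congrArg (invt ρ).val (hev ⟨a⁻¹ t, com_invt hai t.2⟩)
      rw [← Polynomial.aeval_algHom_apply] at h1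
      exact h1
    have h3 : (t : R) = Polynomial.aeval (t : R) (q.comp p) := by
      have h4 : a (a⁻¹ (t : R)) = t := by
        rw [← AlgEquiv.mul_apply, mul_inv_cancel, AlgEquiv.one_apply]
      rw [h2, ← AlgEquiv.coe_toAlgHom, ← Polynomial.aeval_algHom_apply, AlgEquiv.coe_toAlgHom,
        h1] at h4
      rw [Polynomial.aeval_comp]
      exact h4.symm
    have h4 : q.comp p = Polynomial.X := by
      have h5 : t = Polynomial.aeval t (q.comp p) := by
        apply Subtype.ext
        rw [h3]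
        exact Polynomial.aeval_algHom_apply (invt ρ).val t (q.comp p)
      have h6 := congrArg e h5
      rw [← AlgEquiv.coe_toAlgHom, ← Polynomial.aeval_algHom_apply, AlgEquiv.coe_toAlgHom, ht,
        AlgEquiv.apply_symm_apply, Polynomial.aeval_X_left_apply] at h6
      exact h6.symm
    have h5 : p.natDegree = 1 := by
      have h6 := congrArg Polynomial.natDegree h4
      rw [Polynomial.natDegree_comp, Polynomial.natDegree_X] at h6
      exact Nat.eq_one_of_mul_eq_one_left h6
    obtain ⟨α, β, hαβ⟩ : ∃ α β : ℂ, p = Polynomial.C α * Polynomial.X + Polynomial.C β :=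
      ⟨_, _, Polynomial.eq_X_add_C_of_natDegree_le_one h5.le⟩
    refine ⟨α, β, ?_⟩
    rw [h1, hαβ, map_add, map_mul, Polynomial.aeval_C, Polynomial.aeval_C, Polynomial.aeval_X,
      Algebra.smul_def, Algebra.smul_def, mul_one]
  -- the generating subspace
  set V : Submodule ℂ R := (⨆ i, com_gsp ρ (ee i)) ⊔ Submodule.span ℂ {1, (t : R)} with hV
  have hVf : FiniteDimensional ℂ V := by
    have h1 : ∀ i, FiniteDimensional ℂ (com_gsp ρ (ee i)) := fun i => com_gsp_fd hset.rat _
    have h2 : FiniteDimensional ℂ (Submodule.span ℂ ({1, (t : R)} : Set R)) :=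
      FiniteDimensional.span_of_finite ℂ (by simp)
    rw [hV]
    infer_instance
  have h1V : (1 : R) ∈ V := Submodule.mem_sup_right (Submodule.subset_span (by simp))
  have htV : (t : R) ∈ V := Submodule.mem_sup_right (Submodule.subset_span (by simp))
  have hgV : ∀ i g, ρ g (ee i) ∈ V := fun i g =>
    Submodule.mem_sup_left (Submodule.mem_iSup_of_mem i (com_gsp_mem _ _))
  have hVst : ∀ a ∈ eqAut ρ, ∀ v ∈ V, a v ∈ V := by
    intro a ha
    change V ≤ V.comap a.toLinearMap
    refine sup_le (iSup_le fun i => ?_) (Submodule.span_le.2 ?_)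
    · intro v hv
      obtain ⟨c, hc⟩ := hmult a ha i
      exact Submodule.mem_sup_left (Submodule.mem_iSup_of_mem i (com_gsp_stable ha hc v hv))
    · rintro v (rfl | rfl)
      · change a 1 ∈ V
        rw [map_one]; exact h1V
      · change a (t : R) ∈ V
        obtain ⟨α, β, h⟩ := hat a ha
        rw [h]
        exact V.add_mem (V.smul_mem _ htV) (V.smul_mem _ h1V)
  have hVgen : Algebra.adjoin ℂ (V : Set R) = ⊤ := by
    rw [eq_top_iff, ← hgenr]
    refine Algebra.adjoin_le ?_
    rintro x ⟨g, i, rfl⟩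
    obtain ⟨c, hc, hcr⟩ := heegen i (r i) (hr i)
    rw [hcr, map_mul, hc g]
    obtain ⟨F, hF⟩ := hevR c hc
    refine mul_mem ?_ (Algebra.subset_adjoin (hgV i g))
    rw [hF]
    exact Algebra.adjoin_le (Set.singleton_subset_iff.2 (Algebra.subset_adjoin htV))
      (Polynomial.aeval_mem_adjoin_singleton ℂ (t : R))
  refine ⟨eqAut ρ, eqAut ρ, le_rfl, le_rfl, by simp, ⟨0, 1, fun a => ?_⟩, ?_, V, hVf, hVgen, ⊤, ?_⟩
  · simp
  · intro ψ hψ a a' h
    exact ⟨fun ha => com_compat_eqAut hψ ha h, fun ha => com_compat_eqAut hψ ha h⟩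
  · intro a ha
    exact ⟨fun _ => ⟨hVst a ha, trivial⟩, fun _ => ha⟩

end Pool.Agent.Helper43.RS
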