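import Pool.Agent.Helper71.RS.LAU

/-! # STRC: the ring of invariants is a Laurent polynomial ring -/

namespace Pool.Agent.Helper43.RS

open scoped ComplexConjugate

theorem st_STRC (hKB : ST_KB) (hGEN : ST_GEN) (hCOV : ST_COV) : ST_STRC := by
  intro G _ H B R _ _ _ ρ hset hL
  have := hset.ic
  have := hset.ft
  have hPID : IsPrincipalIdealRing (invt ρ) := by
    obtain ⟨e⟩ := hL
    have := lau_pid
    exact IsPrincipalIdealRing.of_surjective (e.symm : LaurentPolynomial ℂ →+* invt ρ)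
      e.symm.surjective
  obtain ⟨tp, tp0, tpadd, tpmem, hU, hInj, hG⟩ := lau_tpow (invt ρ) hL
  have hnc : ∃ t ∈ invt ρ, ∀ c : ℂ, t ≠ algebraMap ℂ R c := by
    refine ⟨tp 1, tpmem 1, fun c hc => ?_⟩
    have h1 := hInj 1 c 1 0 one_ne_zero (by rw [tp0, one_smul, hc, Algebra.smul_def, mul_one])
    omega
  have tpinv : ∀ m, tp m * tp (-m) = 1 := by
    intro m; rw [← tpadd, add_neg_cancel, tp0]
  have tpne : ∀ m, tp m ≠ 0 := fun m h => by
    have := tpinv m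
    rw [h, zero_mul] at this
    exact zero_ne_one this
  have hsmne : ∀ (c : ℂ) (r : R), c ≠ 0 → r ≠ 0 → c • r ≠ 0 := fun c r hc hr =>
    smul_ne_zero hc hr
  obtain ⟨k, lam, r, hr, hr0, hgenr⟩ := hGEN G H hset.hopf hset.red B hset.solv hset.irrB R ρ
    hset.rat
  choose ee hee hee0 heegen using fun i =>
    com_princ hset hCOV hKB hnc hPID (lam i) (r i) (hr i) (hr0 i)
  -- action on the powers
  have hpow : ∀ (a : R ≃ₐ[ℂ] R) (α : ℂ) (m : ℤ), α ≠ 0 → a (tp 1) = α • tp m →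
      ∀ n : ℤ, a (tp n) = α ^ n • tp (m * n) := by
    intro a α m hα ha n
    have hneg : a (tp (-1)) = α⁻¹ • tp (-m) := by
      have h1 : a (tp 1) * a (tp (-1)) = 1 := by rw [← map_mul, tpinv, map_one]
      rw [ha] at h1
      have h2 : (α • tp m) * (α⁻¹ • tp (-m)) = 1 := by
        rw [smul_mul_smul_comm, mul_inv_cancel₀ hα, tpinv, one_smul]
      exact mul_left_cancel₀ (hsmne α _ hα (tpne m)) (h1.trans h2.symm)
    induction n using Int.induction_on with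
    | zero => simp [tp0]
    | succ n ih =>
      rw [tpadd, map_mul, ih, ha, smul_mul_smul_comm, ← tpadd, zpow_add_one₀ hα, mul_add_one]
    | pred n ih =>
      rw [zpow_sub_one₀ hα, show m * (-(n : ℤ) - 1) = m * -(n : ℤ) + -m by ring,
        sub_eq_add_neg, tpadd (-(n : ℤ)) (-1), map_mul, ih, hneg, smul_mul_smul_comm, ← tpadd]
  have hA : ∀ a ∈ eqAut ρ, ∃ α : ℂ, α ≠ 0 ∧ ∃ m : ℤ, a (tp 1) = α • tp m := fun a ha =>
    hU _ (com_invt ha (tpmem 1)) _ (com_invt ha (tpmem (-1))) (by rw [← map_mul, tpinv, map_one])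
  have hainv : ∀ (a : R ≃ₐ[ℂ] R) (x : R), a (a⁻¹ x) = x := fun a x => by
    rw [← AlgEquiv.mul_apply, mul_inv_cancel, AlgEquiv.one_apply]
  have hainv' : ∀ (a : R ≃ₐ[ℂ] R) (x : R), a⁻¹ (a x) = x := fun a x => by
    rw [← AlgEquiv.mul_apply, inv_mul_cancel, AlgEquiv.one_apply]
  have hpm : ∀ a ∈ eqAut ρ, ∃ α : ℂ, α ≠ 0 ∧ (a (tp 1) = α • tp 1 ∨ a (tp 1) = α • tp (-1)) := by
    intro a ha
    obtain ⟨α, hα, m, hm⟩ := hA a ha
    obtain ⟨β, hβ, n, hn⟩ := hA a⁻¹ (inv_mem ha)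
    have h1 := hainv a (tp 1)
    rw [hn, map_smul, hpow a α m hα hm n, smul_smul] at h1
    have h2 := hInj 1 _ 1 (m * n) one_ne_zero ((one_smul ℂ (tp 1)).trans h1.symm)
    rcases Int.eq_one_or_neg_one_of_mul_eq_one h2.symm with h3 | h3
    · exact ⟨α, hα, Or.inl (by rw [hm, h3])⟩
    · exact ⟨α, hα, Or.inr (by rw [hm, h3])⟩
  have hcne : ∀ (a : R ≃ₐ[ℂ] R) (c : ℂ) (x : R), x ≠ 0 → a x = c • x → c ≠ 0 := by
    rintro a c x hx h rfl
    rw [zero_smul] at h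
    exact hx (by simpa using h)
  -- the subgroup of finite index
  let A₁ : Subgroup (R ≃ₐ[ℂ] R) :=
    { carrier := {a | a ∈ eqAut ρ ∧ ∃ c : ℂ, a (tp 1) = c • tp 1}
      mul_mem' := by
        rintro a b ⟨ha, c, hc⟩ ⟨hb, c', hc'⟩
        refine ⟨mul_mem ha hb, c' * c, ?_⟩
        rw [AlgEquiv.mul_apply, hc', map_smul, hc, smul_smul]
      one_mem' := ⟨one_mem _, 1, by simp⟩
      inv_mem' := by
        rintro a ⟨ha, c, hc⟩
        have hc0 := hcne a c _ (tpne 1) hc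
        refine ⟨inv_mem ha, c⁻¹, ?_⟩
        apply a.injective
        rw [hainv, map_smul, hc, smul_smul, inv_mul_cancel₀ hc0, one_smul] }
  have hA₁ : ∀ a, a ∈ A₁ ↔ a ∈ eqAut ρ ∧ ∃ c : ℂ, a (tp 1) = c • tp 1 := fun a => Iff.rfl
  have hidx : A₁.relIndex (eqAut ρ) ≠ 0 := by
    classical
    refine com_relIndex (X := Bool)
      (fun a : eqAut ρ => decide (∃ c : ℂ, (a : R ≃ₐ[ℂ] R) (tp 1) = c • tp 1)) ?_
    rintro ⟨a, ha⟩ ⟨b, hb⟩ hab
    simp only [decide_eq_decide] at hab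
    by_cases h1 : ∃ c : ℂ, a (tp 1) = c • tp 1
    · exact A₁.mul_mem (A₁.inv_mem ⟨ha, h1⟩) ⟨hb, hab.1 h1⟩
    · have h2 : ¬ ∃ c : ℂ, b (tp 1) = c • tp 1 := fun h => h1 (hab.2 h)
      obtain ⟨α, hα, h3 | h3⟩ := hpm a ha
      · exact absurd ⟨α, h3⟩ h1
      obtain ⟨β, hβ, h4 | h4⟩ := hpm b hb
      · exact absurd ⟨β, h4⟩ h2
      refine ⟨mul_mem (inv_mem ha) hb, β * α⁻¹, ?_⟩
      rw [AlgEquiv.mul_apply, h4, map_smul]
      have h5 : a⁻¹ (tp (-1)) = α⁻¹ • tp 1 := by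
        apply a.injective
        rw [hainv, map_smul, h3, smul_smul, inv_mul_cancel₀ hα, one_smul]
      rw [h5, smul_smul]
  -- the multiplier exponents
  have hmult : ∀ a : A₁, ∀ i, ∃ m : ℤ, ∃ c : ℂ, c ≠ 0 ∧
      (a : R ≃ₐ[ℂ] R) (ee i) = c • (tp m * ee i) := by
    rintro ⟨a, ha⟩ i
    obtain ⟨x, y, hxy, hax⟩ := com_unit (hee i) (hee0 i) (heegen i) ha.1
    obtain ⟨c, hc, m, hm⟩ := hU x x.2 y y.2 (congrArg Subtype.val hxy)
    exact ⟨m, c, hc, by rw [hax, hm, smul_mul_assoc]⟩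
  choose μ hμ using hmult
  have huniq : ∀ i (c c' : ℂ) (m m' : ℤ), c ≠ 0 → c • (tp m * ee i) = c' • (tp m' * ee i) →
      m = m' := by
    intro i c c' m m' hc h
    rw [← smul_mul_assoc, ← smul_mul_assoc] at h
    exact hInj c c' m m' hc (mul_right_cancel₀ (hee0 i) h)
  have hμmul : ∀ a b : A₁, ∀ i, μ (a * b) i = μ a i + μ b i := by
    intro a b i
    obtain ⟨c, hc, h1⟩ := hμ (a * b) i
    obtain ⟨ca, hca, ha⟩ := hμ a i
    obtain ⟨cb, hcb, hb⟩ := hμ b i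
    obtain ⟨-, α, hα⟩ := a.2
    have hα0 := hcne _ α _ (tpne 1) hα
    have h2 := hpow a α 1 hα0 hα (μ b i)
    rw [one_mul] at h2
    have h3 : ((a * b : A₁) : R ≃ₐ[ℂ] R) (ee i) =
        (cb * (α ^ μ b i * ca)) • (tp (μ a i + μ b i) * ee i) := by
      change (a : R ≃ₐ[ℂ] R) ((b : R ≃ₐ[ℂ] R) (ee i)) = _
      rw [hb, map_smul, map_mul, h2, ha, smul_mul_smul_comm, smul_smul, tpadd]
      congr 1
      ring
    rw [h1] at h3
    exact huniq i _ _ _ _ hc h3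
  let φ : A₁ →* Multiplicative (Fin k → ℤ) := MonoidHom.mk' (fun a => Multiplicative.ofAdd (μ a))
    (by
      intro a b
      rw [← ofAdd_add]
      congr 1
      ext i
      exact hμmul a b i)
  have hφ1 : ∀ a, φ a = 1 ↔ ∀ i, μ a i = 0 := by
    intro a
    change Multiplicative.ofAdd (μ a) = 1 ↔ _
    rw [ofAdd_eq_one]
    exact ⟨fun h i => by rw [h]; rfl, fun h => funext h⟩
  -- the generating subspace
  set V : Submodule ℂ R := (⨆ i, com_gsp ρ (ee i)) ⊔ Submodule.span ℂ {tp 1, tp (-1)} with hV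
  have hVf : FiniteDimensional ℂ V := by
    have h1 : ∀ i, FiniteDimensional ℂ (com_gsp ρ (ee i)) := fun i => com_gsp_fd hset.rat _
    have h2 : FiniteDimensional ℂ (Submodule.span ℂ ({tp 1, tp (-1)} : Set R)) :=
      FiniteDimensional.span_of_finite ℂ (by simp)
    rw [hV]
    infer_instance
  have h1V : tp 1 ∈ V := Submodule.mem_sup_right (Submodule.subset_span (by simp))
  have h2V : tp (-1) ∈ V := Submodule.mem_sup_right (Submodule.subset_span (by simp))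
  have hgV : ∀ i g, ρ g (ee i) ∈ V := fun i g =>
    Submodule.mem_sup_left (Submodule.mem_iSup_of_mem i (com_gsp_mem _ _))
  have hVst : ∀ a ∈ A₁, (∀ i, ∃ c : ℂ, a (ee i) = c • ee i) → ∀ v ∈ V, a v ∈ V := by
    intro a ha hai
    change V ≤ V.comap a.toLinearMap
    refine sup_le (iSup_le fun i => ?_) (Submodule.span_le.2 ?_)
    · intro v hv
      obtain ⟨c, hc⟩ := hai i
      exact Submodule.mem_sup_left (Submodule.mem_iSup_of_mem i (com_gsp_stable ha.1 hc v hv))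
    · obtain ⟨-, α, hα⟩ := ha
      have hα0 := hcne _ α _ (tpne 1) hα
      rintro v (rfl | rfl)
      · change a (tp 1) ∈ V
        rw [hα]; exact V.smul_mem _ h1V
      · change a (tp (-1)) ∈ V
        rw [hpow a α 1 hα0 hα (-1), one_mul]
        exact V.smul_mem _ h2V
  have hVgen : Algebra.adjoin ℂ (V : Set R) = ⊤ := by
    rw [eq_top_iff, ← hgenr]
    refine Algebra.adjoin_le ?_
    rintro x ⟨g, i, rfl⟩
    obtain ⟨c, hc, hcr⟩ := heegen i (r i) (hr i)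
    rw [hcr, map_mul, hc g]
    refine mul_mem ?_ (Algebra.subset_adjoin (hgV i g))
    refine Algebra.adjoin_mono ?_ (hG c hc)
    rintro x (rfl | rfl)
    · exact h1V
    · exact h2V
  have hφ : ∀ a : A₁, φ a = 1 ↔ LocFin (a : R ≃ₐ[ℂ] R) := by
    intro a
    rw [hφ1]
    constructor
    · intro h
      refine com_locFin_of_gen hVf hVgen (hVst a a.2 (fun i => ?_))
      obtain ⟨c, -, hc⟩ := hμ a i
      exact ⟨c, by rw [hc, h i, tp0, one_mul]⟩
    · intro h i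
      obtain ⟨W, heW, hWf, hW⟩ := h (ee i)
      obtain ⟨c, hc0, hc⟩ := hμ a i
      obtain ⟨-, α, hα⟩ := a.2
      have hα0 := hcne _ α _ (tpne 1) hα
      have h2 := hpow a α 1 hα0 hα (μ a i)
      rw [one_mul] at h2
      have h3 : ∀ n : ℕ, ∃ s : ℂ, s ≠ 0 ∧
          ((a : R ≃ₐ[ℂ] R) ^ n) (ee i) = s • (tp (μ a i) ^ n * ee i) := by
        intro n
        induction n with
        | zero => exact ⟨1, one_ne_zero, by simp⟩
        | succ n ih =>
          obtain ⟨s, hs, h⟩ := ih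
          refine ⟨s * ((α ^ μ a i) ^ n * c), mul_ne_zero hs (mul_ne_zero (pow_ne_zero _
            (zpow_ne_zero _ hα0)) hc0), ?_⟩
          rw [pow_succ', AlgEquiv.mul_apply, h, map_smul, map_mul, map_pow, h2, hc, smul_pow,
            smul_mul_smul_comm, smul_smul, pow_succ, mul_assoc]
      have h4 : ∀ n : ℕ, tp (μ a i) ^ n * ee i ∈ W := by
        intro n
        obtain ⟨s, hs, h⟩ := h3 n
        have h5 := com_pow_mem hW heW n
        rw [h] at h5
        exact (Submodule.smul_mem_iff W hs).1 h5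
      obtain ⟨c', hc'⟩ := com_dep hWf (hee0 i) h4
      refine hInj 1 c' (μ a i) 0 one_ne_zero ?_
      rw [one_smul, tp0, hc', Algebra.smul_def, mul_one]
  refine com_assemble A₁ (fun a ha => ha.1) hidx k φ hφ ?_ V hVf hVgen
    (Submodule.comap (LinearMap.applyₗ (⟨tp 1, h1V⟩ : V)) (Submodule.span ℂ {tp 1})).toAffineSubspace
    ?_
  · intro ψ hψ a a' h ha
    refine ⟨com_compat_eqAut hψ ha.1 h, ?_⟩
    obtain ⟨ha1, α, hα⟩ := ha
    have hα0 := hcne _ α _ (tpne 1) hα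
    have h1 : ψ.symm (tp 1) ∈ invt ρ := by
      rw [← com_compat_invt hψ, RingEquiv.apply_symm_apply]; exact tpmem 1
    have h2 : ψ.symm (tp (-1)) ∈ invt ρ := by
      rw [← com_compat_invt hψ, RingEquiv.apply_symm_apply]; exact tpmem _
    obtain ⟨c, hc, m, hm⟩ := hU _ h1 _ h2 (by rw [← map_mul, tpinv, map_one])
    have h3 : a (ψ.symm (tp 1)) = (α ^ m) • ψ.symm (tp 1) := by
      rw [hm, map_smul, hpow a α 1 hα0 hα m, one_mul, smul_comm]
    obtain ⟨c', hc'⟩ := com_compat_const hψ (α ^ m)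
    refine ⟨c', ?_⟩
    rw [com_compat_surj h, h3, Algebra.smul_def, map_mul, hc', RingEquiv.apply_symm_apply,
      Algebra.smul_def]
  · intro a ha
    rw [Submodule.mem_toAffineSubspace, Submodule.mem_comap, Submodule.mem_span_singleton]
    constructor
    · rintro ⟨ha1, hl⟩
      refine ⟨hVst a ha1 (fun i => ?_), ?_⟩
      · have h1 := (hφ1 ⟨a, ha1⟩).1 ((hφ ⟨a, ha1⟩).2 hl) i
        obtain ⟨c, -, hc⟩ := hμ ⟨a, ha1⟩ i
        exact ⟨c, by rw [h1, tp0, one_mul] at hc; exact hc⟩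
      · obtain ⟨-, c, hc⟩ := ha1
        exact ⟨c, hc.symm⟩
    · rintro ⟨h1, c, hc⟩
      exact ⟨⟨ha, c, hc.symm⟩, com_locFin_of_gen hVf hVgen h1⟩

end Pool.Agent.Helper43.RS
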