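import Pool.Agent.Helper43.RS.Spec

/-! # Common lemmas for the structure theorems -/

namespace Pool.Agent.Helper43.RS

open scoped ComplexConjugate

section com

variable {G : Type} [Group G] {R : Type} [CommRing R] [Algebra ℂ R]
  {ρ : G →* (R ≃ₐ[ℂ] R)}

lemma com_apply {a : R ≃ₐ[ℂ] R} (ha : a ∈ eqAut ρ) (g : G) (r : R) :
    a (ρ g r) = ρ g (a r) := by
  have := ha g
  exact congrArg (fun f : R ≃ₐ[ℂ] R => f r) this

lemma com_mem_of {a : R ≃ₐ[ℂ] R} (h : ∀ g r, a (ρ g r) = ρ g (a r)) : a ∈ eqAut ρ := by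
  intro g
  ext r
  exact h g r

lemma com_invt {a : R ≃ₐ[ℂ] R} (ha : a ∈ eqAut ρ) {r : R} (hr : r ∈ invt ρ) : a r ∈ invt ρ := by
  intro g
  rw [← com_apply ha, hr g]

lemma com_semi {B : Subgroup G} {lam : B → ℂ} {a : R ≃ₐ[ℂ] R} (ha : a ∈ eqAut ρ) {r : R}
    (hr : r ∈ semi (ρ.comp B.subtype) lam) : a r ∈ semi (ρ.comp B.subtype) lam := by
  intro b
  have h1 := hr b
  change ρ (b : G) r = _ at h1
  change ρ (b : G) (a r) = _
  rw [← com_apply ha, h1, map_smul]

lemma com_semi_mul {B : Subgroup G} {lam : B → ℂ} {c : R} (hc : c ∈ invt ρ) {r : R}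
    (hr : r ∈ semi (ρ.comp B.subtype) lam) : c * r ∈ semi (ρ.comp B.subtype) lam := by
  intro b
  have h1 := hr b
  change ρ (b : G) r = _ at h1
  change ρ (b : G) (c * r) = _
  rw [map_mul, hc, h1, mul_smul_comm]

lemma com_ratInv [IsDomain R] {B : Subgroup G} {lam : B → ℂ} {r r' : R}
    (hr : r ∈ semi (ρ.comp B.subtype) lam) (hr' : r' ∈ semi (ρ.comp B.subtype) lam)
    (h0 : r' ≠ 0) : RatInv (ρ.comp B.subtype) r r' := by
  refine ⟨h0, fun b => ?_⟩
  rw [hr b, hr' b, smul_mul_assoc, mul_smul_comm]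

/-! ### Compatible maps -/

lemma com_compat_surj {ψ : R ≃+* R} {a a' : R ≃ₐ[ℂ] R}
    (h : ∀ r, a' (ψ r) = ψ (a r)) (r : R) : a' r = ψ (a (ψ.symm r)) := by
  rw [← h, RingEquiv.apply_symm_apply]

lemma com_compat_eqAut {ψ : R ≃+* R} (hψ : Compat ρ ψ) {a a' : R ≃ₐ[ℂ] R}
    (ha : a ∈ eqAut ρ) (h : ∀ r, a' (ψ r) = ψ (a r)) : a' ∈ eqAut ρ := by
  obtain ⟨-, σ, hσ⟩ := hψ
  refine com_mem_of (fun g r => ?_)
  obtain ⟨s, rfl⟩ := ψ.surjective r
  obtain ⟨k, rfl⟩ := σ.surjective g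
  rw [← hσ, h, com_apply ha, hσ, h]

lemma com_compat_invt {ψ : R ≃+* R} (hψ : Compat ρ ψ) {r : R} : ψ r ∈ invt ρ ↔ r ∈ invt ρ := by
  obtain ⟨-, σ, hσ⟩ := hψ
  constructor
  · intro h g
    have h1 := h (σ g)
    rw [← hσ] at h1
    exact ψ.injective h1
  · intro h g
    obtain ⟨k, rfl⟩ := σ.surjective g
    rw [← hσ, h k]

lemma com_compat_const {ψ : R ≃+* R} (hψ : Compat ρ ψ) (c : ℂ) :
    ∃ c' : ℂ, ψ (algebraMap ℂ R c) = algebraMap ℂ R c' := by
  obtain ⟨h | h, -⟩ := hψ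
  · exact ⟨_, h c⟩
  · exact ⟨_, h c⟩

lemma com_compat_locFin {ψ : R ≃+* R} (hψ : Compat ρ ψ) {a a' : R ≃ₐ[ℂ] R}
    (ha : LocFin a) (h : ∀ r, a' (ψ r) = ψ (a r)) : LocFin a' := by
  intro r
  obtain ⟨s, rfl⟩ := ψ.surjective r
  obtain ⟨W, hs, hfd, hW⟩ := ha s
  obtain ⟨S, hS⟩ := (Module.Finite.iff_fg (N := W)).1 hfd
  -- the image of W
  have hsm : ∀ (c : ℂ) (w : R), ∃ c' : ℂ, ψ (c • w) = c' • ψ w := by
    intro c w
    obtain ⟨c', hc'⟩ := com_compat_const hψ c
    exact ⟨c', by rw [Algebra.smul_def, map_mul, hc', ← Algebra.smul_def]⟩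
  have hsm' : ∀ (c : ℂ) (w : R), ∃ c' : ℂ, c • ψ w = ψ (c' • w) := by
    intro c w
    obtain ⟨h1 | h1, -⟩ := hψ
    · refine ⟨conj c, ?_⟩
      rw [Algebra.smul_def, Algebra.smul_def, map_mul, h1, Complex.conj_conj]
    · refine ⟨c, ?_⟩
      rw [Algebra.smul_def, Algebra.smul_def, map_mul, h1]
  have hmem : ∀ w ∈ W, ψ w ∈ Submodule.span ℂ (ψ '' (S : Set R)) := by
    intro w hw
    rw [← hS] at hw
    induction hw using Submodule.span_induction with
    | mem x hx => exact Submodule.subset_span ⟨x, hx, rfl⟩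
    | zero => rw [map_zero]; exact Submodule.zero_mem _
    | add x y _ _ hx hy => rw [map_add]; exact Submodule.add_mem _ hx hy
    | smul c x _ hx =>
      obtain ⟨c', hc'⟩ := hsm c x
      rw [hc']; exact Submodule.smul_mem _ _ hx
  refine ⟨Submodule.span ℂ (ψ '' (S : Set R)), hmem s hs, ?_, ?_⟩
  · exact FiniteDimensional.span_of_finite ℂ (S.finite_toSet.image _)
  · intro w hw
    induction hw using Submodule.span_induction with
    | mem x hx =>
      obtain ⟨y, hy, rfl⟩ := hx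
      rw [h]
      exact hmem _ (hW _ (by rw [← hS]; exact Submodule.subset_span hy))
    | zero => rw [map_zero]; exact Submodule.zero_mem _
    | add x y _ _ hx hy => rw [map_add]; exact Submodule.add_mem _ hx hy
    | smul c x _ hx => rw [map_smul]; exact Submodule.smul_mem _ _ hx

/-! ### Finite dimensional generating subspaces -/

lemma com_locFin_of_gen {V : Submodule ℂ R} (hV : FiniteDimensional ℂ V)
    (hgen : Algebra.adjoin ℂ (V : Set R) = ⊤) {a : R ≃ₐ[ℂ] R} (ha : ∀ v ∈ V, a v ∈ V) :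
    LocFin a := by
  intro r
  have hr : r ∈ Algebra.adjoin ℂ (V : Set R) := by rw [hgen]; trivial
  induction hr using Algebra.adjoin_induction with
  | mem x hx => exact ⟨V, hx, hV, ha⟩
  | algebraMap c =>
    refine ⟨Submodule.span ℂ {1}, ?_, inferInstance, ?_⟩
    · rw [Algebra.algebraMap_eq_smul_one]
      exact Submodule.smul_mem _ _ (Submodule.mem_span_singleton_self 1)
    · intro w hw
      obtain ⟨c, rfl⟩ := Submodule.mem_span_singleton.1 hw
      rw [map_smul, map_one]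
      exact Submodule.smul_mem _ _ (Submodule.mem_span_singleton_self 1)
  | add x y _ _ hx hy =>
    obtain ⟨W, hxW, hWf, hW⟩ := hx
    obtain ⟨W', hyW, hWf', hW'⟩ := hy
    refine ⟨W ⊔ W', Submodule.add_mem_sup hxW hyW, inferInstance, ?_⟩
    intro w hw
    obtain ⟨u, hu, u', hu', rfl⟩ := Submodule.mem_sup.1 hw
    rw [map_add]
    exact Submodule.add_mem_sup (hW u hu) (hW' u' hu')
  | mul x y _ _ hx hy =>
    obtain ⟨W, hxW, hWf, hW⟩ := hx
    obtain ⟨W', hyW, hWf', hW'⟩ := hy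
    refine ⟨W * W', Submodule.mul_mem_mul hxW hyW, ?_, ?_⟩
    · exact Module.Finite.iff_fg.2
        ((Module.Finite.iff_fg.1 hWf).mul (Module.Finite.iff_fg.1 hWf'))
    · intro w hw
      induction hw using Submodule.mul_induction_on' with
      | mem_mul_mem u hu u' hu' =>
        rw [map_mul]
        exact Submodule.mul_mem_mul (hW u hu) (hW' u' hu')
      | add x _ y _ hx hy => rw [map_add]; exact Submodule.add_mem _ hx hy

/-- the span of the orbit of an element -/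
def com_gsp (ρ : G →* (R ≃ₐ[ℂ] R)) (r : R) : Submodule ℂ R :=
  Submodule.span ℂ {x | ∃ g : G, x = ρ g r}

lemma com_gsp_self (r : R) : r ∈ com_gsp ρ r :=
  Submodule.subset_span ⟨1, by simp⟩

lemma com_gsp_mem (r : R) (g : G) : ρ g r ∈ com_gsp ρ r :=
  Submodule.subset_span ⟨g, rfl⟩

lemma com_gsp_fd {H : Subalgebra ℂ (G → ℂ)} (hrat : IsRat H (toRep ρ)) (r : R) :
    FiniteDimensional ℂ (com_gsp ρ r) := by
  obtain ⟨W, hr, hWf, hW, -⟩ := hrat r
  have : com_gsp ρ r ≤ W := by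
    refine Submodule.span_le.2 ?_
    rintro x ⟨g, rfl⟩
    exact hW g r hr
  exact Submodule.finiteDimensional_of_le this

/-- if `a r = c r` with a constant `c`, the orbit span is stable -/
lemma com_gsp_stable {a : R ≃ₐ[ℂ] R} (ha : a ∈ eqAut ρ) {r : R} {c : ℂ} (h : a r = c • r) :
    ∀ v ∈ com_gsp ρ r, a v ∈ com_gsp ρ r := by
  intro v hv
  induction hv using Submodule.span_induction with
  | mem x hx =>
    obtain ⟨g, rfl⟩ := hx
    rw [com_apply ha, h, map_smul]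
    exact Submodule.smul_mem _ _ (com_gsp_mem r g)
  | zero => rw [map_zero]; exact Submodule.zero_mem _
  | add x y _ _ hx hy => rw [map_add]; exact Submodule.add_mem _ hx hy
  | smul c x _ hx => rw [map_smul]; exact Submodule.smul_mem _ _ hx

/-- an element of a domain killed by a nonzero complex polynomial is constant -/
lemma com_alg_const [IsDomain R] {u : R} {p : Polynomial ℂ} (hp : p ≠ 0)
    (h : Polynomial.aeval u p = 0) : ∃ c : ℂ, u = algebraMap ℂ R c := by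
  have hs : p.Splits := IsAlgClosed.splits p
  rw [hs.eq_prod_roots, map_mul, Polynomial.aeval_C, map_multiset_prod, Multiset.map_map] at h
  rcases mul_eq_zero.1 h with h1 | h1
  · exfalso
    have : Nontrivial R := inferInstance
    rw [map_eq_zero_iff _ (algebraMap ℂ R).injective] at h1
    exact hp (Polynomial.leadingCoeff_eq_zero.1 h1)
  · rw [Multiset.prod_eq_zero_iff] at h1
    obtain ⟨c, hc, h2⟩ := Multiset.mem_map.1 h1
    refine ⟨c, ?_⟩
    simp only [Function.comp_apply, map_sub, Polynomial.aeval_X, Polynomial.aeval_C] at h2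
    exact sub_eq_zero.1 h2

/-- powers of `a` -/
lemma com_pow_apply {a : R ≃ₐ[ℂ] R} {r u : R} (hu : a u = u) (h : a r = u * r) (n : ℕ) :
    (a ^ n) r = u ^ n * r := by
  induction n with
  | zero => simp
  | succ n ih =>
    rw [pow_succ', AlgEquiv.mul_apply, ih, map_mul, map_pow, hu, h]
    ring

/-- stability of a subspace under powers -/
lemma com_pow_mem {a : R ≃ₐ[ℂ] R} {W : Submodule ℂ R} (hW : ∀ w ∈ W, a w ∈ W) {r : R}
    (hr : r ∈ W) (n : ℕ) : (a ^ n) r ∈ W := by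
  induction n with
  | zero => simpa
  | succ n ih =>
    rw [pow_succ', AlgEquiv.mul_apply]
    exact hW _ ih

end com

/-! ### Rank one modules over principal rings -/

lemma com_princ {G : Type} [Group G] {H : Subalgebra ℂ (G → ℂ)} {B : Subgroup G}
    {R : Type} [CommRing R] [IsDomain R] [Algebra ℂ R] {ρ : G →* (R ≃ₐ[ℂ] R)}
    (hset : Setup H B ρ) (hCOV : ST_COV) (hKB : ST_KB)
    (hnc : ∃ t ∈ invt ρ, ∀ c : ℂ, t ≠ algebraMap ℂ R c)
    (hPID : IsPrincipalIdealRing (invt ρ)) (lam : B → ℂ) (r' : R)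
    (hr' : r' ∈ semi (ρ.comp B.subtype) lam) (h0 : r' ≠ 0) :
    ∃ e ∈ semi (ρ.comp B.subtype) lam, e ≠ 0 ∧
      ∀ s ∈ semi (ρ.comp B.subtype) lam, ∃ x ∈ invt ρ, s = x * e := by
  classical
  have := hset.ic
  have := hset.ft
  obtain ⟨t, ht, htc⟩ := hnc
  set S := semi (ρ.comp B.subtype) lam with hS
  have hprop : ∀ r ∈ S, ∀ r' ∈ S, r' ≠ 0 → ∃ c ∈ invt ρ, ∃ c' ∈ invt ρ, c ≠ 0 ∧
      c * r = c' * r' := fun r hr r' hr' h0 =>
    hKB G H hset.hopf hset.irr B R ρ hset.rat hset.cx t ht htc r r' (com_ratInv hr hr' h0)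
  obtain ⟨T, hTS, hT⟩ := hCOV G H hset.hopf hset.red R ρ hset.rat S
    (fun c hc s hs => com_semi_mul hc hs) hprop
  choose! c hc c' hc' hcne hcc using fun s (hs : s ∈ S) => hprop s hs r' hr' h0
  -- common denominator
  set C : R := ∏ s ∈ T, c s with hC
  have hCO : C ∈ invt ρ := Subalgebra.prod_mem _ (fun s hs => hc s (hTS s hs))
  have hC0 : C ≠ 0 := Finset.prod_ne_zero_iff.2 (fun s hs => hcne s (hTS s hs))
  have hCT : ∀ s ∈ T, ∃ x ∈ invt ρ, C * s = x * r' := by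
    intro s hs
    refine ⟨(∏ u ∈ T.erase s, c u) * c' s, mul_mem (Subalgebra.prod_mem _ (fun u hu =>
      hc u (hTS u (Finset.mem_of_mem_erase hu)))) (hc' s (hTS s hs)), ?_⟩
    rw [hC, ← Finset.mul_prod_erase T c hs, mul_assoc (∏ u ∈ T.erase s, c u), ← hcc s (hTS s hs)]
    ring
  have hCS : ∀ s ∈ S, ∃ x ∈ invt ρ, C * s = x * r' := by
    intro s hs
    obtain ⟨f, hf, hsf⟩ := hT s hs
    choose! x hx hxr using hCT
    refine ⟨∑ t ∈ T, f t * x t, Subalgebra.sum_mem _ (fun t ht => mul_mem (hf t) (hx t ht)), ?_⟩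
    rw [hsf, Finset.mul_sum, Finset.sum_mul]
    refine Finset.sum_congr rfl (fun t ht => ?_)
    rw [mul_left_comm, hxr t ht, mul_assoc]
  -- the ideal
  let I : Ideal (invt ρ) :=
    { carrier := {x | ∃ s ∈ S, C * s = x * r'}
      add_mem' := by
        rintro x y ⟨s, hs, hxs⟩ ⟨s', hs', hys⟩
        exact ⟨s + s', S.add_mem hs hs', by rw [mul_add, hxs, hys]; push_cast; ring⟩
      zero_mem' := ⟨0, S.zero_mem, by simp⟩
      smul_mem' := by
        rintro c x ⟨s, hs, hxs⟩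
        refine ⟨c * s, com_semi_mul c.2 hs, ?_⟩
        rw [mul_left_comm, hxs, smul_eq_mul]
        push_cast
        ring }
  obtain ⟨d, hd⟩ := (hPID.principal I).principal
  have hdI : d ∈ I := by rw [hd]; exact Submodule.mem_span_singleton_self d
  obtain ⟨e, he, hed⟩ := hdI
  have hCI : (⟨C, hCO⟩ : invt ρ) ∈ I := ⟨r', hr', rfl⟩
  have hd0 : (d : R) ≠ 0 := by
    intro h
    rw [hd] at hCI
    obtain ⟨y, hy⟩ := Submodule.mem_span_singleton.1 hCI
    have h1 : C = y * d := by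
      have := congrArg Subtype.val hy
      simpa using this.symm
    rw [h, mul_zero] at h1
    exact hC0 h1
  refine ⟨e, he, ?_, ?_⟩
  · rintro rfl
    rw [mul_zero] at hed
    exact (mul_ne_zero hd0 h0) hed.symm
  · intro s hs
    obtain ⟨x, hx, hxs⟩ := hCS s hs
    have hxI : (⟨x, hx⟩ : invt ρ) ∈ I := ⟨s, hs, hxs⟩
    rw [hd] at hxI
    obtain ⟨y, hy⟩ := Submodule.mem_span_singleton.1 hxI
    have h1 : x = y * d := by
      have := congrArg Subtype.val hy
      simpa using this.symm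
    refine ⟨y, y.2, ?_⟩
    have h2 : C * s = C * (y * e) := by
      rw [hxs, h1, mul_left_comm, hed]
      ring
    exact mul_left_cancel₀ hC0 h2

/-- the multiplier of an equivariant automorphism on a rank one principal module is a unit -/
lemma com_unit {G : Type} [Group G] {B : Subgroup G} {R : Type} [CommRing R] [IsDomain R]
    [Algebra ℂ R] {ρ : G →* (R ≃ₐ[ℂ] R)} {lam : B → ℂ} {e : R}
    (he : e ∈ semi (ρ.comp B.subtype) lam) (h0 : e ≠ 0)
    (hgen : ∀ s ∈ semi (ρ.comp B.subtype) lam, ∃ x ∈ invt ρ, s = x * e)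
    {a : R ≃ₐ[ℂ] R} (ha : a ∈ eqAut ρ) :
    ∃ x y : invt ρ, x * y = 1 ∧ a e = x * e := by
  obtain ⟨x, hx, hax⟩ := hgen _ (com_semi ha he)
  have hai : a⁻¹ ∈ eqAut ρ := inv_mem ha
  obtain ⟨y, hy, hay⟩ := hgen _ (com_semi hai he)
  refine ⟨⟨x, hx⟩, ⟨a y, com_invt ha hy⟩, ?_, hax⟩
  have h1 : a (a⁻¹ e) = e := by
    rw [← AlgEquiv.mul_apply, mul_inv_cancel, AlgEquiv.one_apply]
  rw [hay, map_mul, hax] at h1
  have h2 : (x * a y) * e = 1 * e := by
    rw [one_mul]
    nth_rewrite 2 [← h1]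
    ring
  exact Subtype.ext (mul_right_cancel₀ h0 h2)

end Pool.Agent.Helper43.RS
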