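import Pool.Agent.Helper71.RS.COM

/-! # Common lemmas, part 2 -/

namespace Pool.Agent.Helper43.RS

open scoped ComplexConjugate

lemma com_relIndex {E : Type*} [Group E] {A₁ A : Subgroup E} {X : Type*} [Finite X]
    (f : A → X) (h : ∀ a b : A, f a = f b → ((a : E)⁻¹ * b) ∈ A₁) : A₁.relIndex A ≠ 0 := by
  have hinj : Function.Injective (fun q : A ⧸ A₁.subgroupOf A => f q.out) := by
    intro q q' hq
    have h1 := h _ _ hq
    have h2 : (QuotientGroup.mk q.out : A ⧸ A₁.subgroupOf A) = QuotientGroup.mk q'.out := by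
      rw [QuotientGroup.eq, Subgroup.mem_subgroupOf]
      exact h1
    rw [QuotientGroup.out_eq', QuotientGroup.out_eq'] at h2
    exact h2
  have hfin : Finite (A ⧸ A₁.subgroupOf A) := Finite.of_injective _ hinj
  exact Subgroup.index_ne_zero_of_finite

/-- linear dependence of `u^n r` in a finite dimensional space forces `u` to be constant -/
lemma com_dep {R : Type} [CommRing R] [IsDomain R] [Algebra ℂ R] {W : Submodule ℂ R}
    (hW : FiniteDimensional ℂ W) {u r : R} (h0 : r ≠ 0) (h : ∀ n : ℕ, u ^ n * r ∈ W) :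
    ∃ c : ℂ, u = algebraMap ℂ R c := by
  set d := Module.finrank ℂ W with hd
  have h1 : ¬ LinearIndependent ℂ (fun i : Fin (d + 1) => (⟨u ^ (i : ℕ) * r, h i⟩ : W)) := by
    intro hli
    have := hli.fintype_card_le_finrank
    simp [hd] at this
  rw [Fintype.not_linearIndependent_iff] at h1
  obtain ⟨g, hg, i, hi⟩ := h1
  set p : Polynomial ℂ := ∑ j : Fin (d + 1), Polynomial.monomial (j : ℕ) (g j) with hp
  have hp0 : p ≠ 0 := by
    intro hp0
    have h2 : p.coeff (i : ℕ) = g i := by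
      rw [hp, Polynomial.finsetSum_coeff]
      simp only [Polynomial.coeff_monomial]
      rw [Finset.sum_eq_single i]
      · simp
      · intro j _ hj
        rw [if_neg]
        intro h3
        exact hj (Fin.ext h3)
      · intro h3
        exact absurd (Finset.mem_univ i) h3
    rw [hp0, Polynomial.coeff_zero] at h2
    exact hi h2.symm
  refine com_alg_const hp0 ?_
  have h2 : Polynomial.aeval u p * r = 0 := by
    have h3 := congrArg Subtype.val hg
    rw [Submodule.coe_sum] at h3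
    rw [hp, map_sum, Finset.sum_mul]
    simp only [Polynomial.aeval_monomial]
    rw [← Submodule.coe_zero (p := W), ← h3]
    refine Finset.sum_congr rfl (fun j _ => ?_)
    rw [Submodule.coe_smul, Algebra.smul_def]
    ring
  exact (mul_eq_zero.1 h2).resolve_right h0

/-- assembly of the structure statement -/
lemma com_assemble {G : Type} [Group G] {R : Type} [CommRing R] [Algebra ℂ R]
    {ρ : G →* (R ≃ₐ[ℂ] R)} (A₁ : Subgroup (R ≃ₐ[ℂ] R)) (h1 : A₁ ≤ eqAut ρ)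
    (hidx : A₁.relIndex (eqAut ρ) ≠ 0) (N : ℕ) (φ : A₁ →* Multiplicative (Fin N → ℤ))
    (hφ : ∀ a : A₁, φ a = 1 ↔ LocFin (a : R ≃ₐ[ℂ] R))
    (hc : ∀ ψ : R ≃+* R, Compat ρ ψ → ∀ a a' : R ≃ₐ[ℂ] R, (∀ r, a' (ψ r) = ψ (a r)) →
      a ∈ A₁ → a' ∈ A₁)
    (V : Submodule ℂ R) (hV : FiniteDimensional ℂ V) (hgen : Algebra.adjoin ℂ (V : Set R) = ⊤)
    (K : AffineSubspace ℂ (V →ₗ[ℂ] R))
    (hK : ∀ a ∈ eqAut ρ, (a ∈ A₁ ∧ LocFin a) ↔
      (∀ v ∈ V, a v ∈ V) ∧ a.toLinearMap ∘ₗ V.subtype ∈ K) : StrOut ρ := by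
  have hmem : ∀ a : R ≃ₐ[ℂ] R, a ∈ φ.ker.map A₁.subtype ↔ a ∈ A₁ ∧ LocFin a := by
    intro a
    constructor
    · rintro ⟨b, hb, rfl⟩
      exact ⟨b.2, (hφ b).1 hb⟩
    · rintro ⟨ha, hl⟩
      exact ⟨⟨a, ha⟩, (hφ ⟨a, ha⟩).2 hl, rfl⟩
  refine ⟨A₁, φ.ker.map A₁.subtype, ?_, h1, hidx, ⟨N, φ, fun a => ?_⟩, ?_, V, hV, hgen, K, ?_⟩
  · intro a ha
    exact ((hmem a).1 ha).1
  · rw [hmem, hφ]
    exact ⟨fun h => ⟨a.2, h⟩, fun h => h.2⟩
  · intro ψ hψ a a' h
    refine ⟨hc ψ hψ a a' h, fun ha => ?_⟩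
    rw [hmem] at ha ⊢
    exact ⟨hc ψ hψ a a' h ha.1, com_compat_locFin hψ ha.2 h⟩
  · intro a ha
    rw [hmem]
    exact hK a ha

end Pool.Agent.Helper43.RS
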