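import Pool.Agent.Helper71.RS.Ctwo

/-! # Laurent polynomials -/

namespace Pool.Agent.Helper43.RS

open scoped ComplexConjugate LaurentPolynomial
open LaurentPolynomial

lemma lau_pid : IsPrincipalIdealRing ℂ[T;T⁻¹] := by
  constructor
  intro I
  obtain ⟨g, hg⟩ := (IsPrincipalIdealRing.principal
    (Ideal.under (Polynomial ℂ) I)).principal
  have h1 := IsLocalization.map_under (Submonoid.powers (Polynomial.X : Polynomial ℂ)) ℂ[T;T⁻¹] I
  refine ⟨algebraMap (Polynomial ℂ) ℂ[T;T⁻¹] g, ?_⟩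
  rw [← h1, hg]
  change Ideal.map _ (Ideal.span {g}) = Ideal.span _
  rw [Ideal.map_span, Set.image_singleton]

lemma lau_unit {u v : ℂ[T;T⁻¹]} (h : u * v = 1) : ∃ c : ℂ, c ≠ 0 ∧ ∃ m : ℤ, u = C c * T m := by
  obtain ⟨n, F, hF⟩ := exists_T_pow u
  obtain ⟨m, F', hF'⟩ := exists_T_pow v
  have h1 : F * F' = Polynomial.X ^ (n + m) := by
    apply Polynomial.toLaurent_injective
    rw [map_mul, hF, hF', Polynomial.toLaurent_X_pow]
    calc u * T n * (v * T m) = (u * v) * (T n * T m) := by ring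
      _ = T ((n + m : ℕ) : ℤ) := by rw [h, one_mul, ← T_add]; push_cast; rfl
  have h2 : F ∣ Polynomial.X ^ (n + m) := ⟨F', h1.symm⟩
  obtain ⟨i, -, hi⟩ := (dvd_prime_pow Polynomial.prime_X _).1 h2
  obtain ⟨w, hw⟩ := hi.symm
  obtain ⟨c, hc, hcw⟩ := Polynomial.isUnit_iff.1 w.isUnit
  refine ⟨c, hc.ne_zero, (i : ℤ) - n, ?_⟩
  have h3 : u = Polynomial.toLaurent F * T (-n) := by
    rw [hF, mul_T_assoc]; simp
  rw [h3, ← hw, ← hcw, map_mul, Polynomial.toLaurent_X_pow, Polynomial.toLaurent_C, T_sub]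
  ring

lemma lau_inj {c c' : ℂ} (hc : c ≠ 0) {m m' : ℤ} (h : (C c * T m : ℂ[T;T⁻¹]) = C c' * T m') :
    m = m' := by
  have h1 := congrArg degree h
  have hc' : c' ≠ 0 := by
    rintro rfl
    rw [degree_C_mul_T m c hc] at h1
    simp at h1
  rw [degree_C_mul_T m c hc, degree_C_mul_T m' c' hc'] at h1
  exact_mod_cast h1

/-- powers of the coordinate in a ring isomorphic to the Laurent polynomials -/
lemma lau_tpow {R : Type} [CommRing R] [Algebra ℂ R] (O : Subalgebra ℂ R)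
    (h : Nonempty (O ≃ₐ[ℂ] ℂ[T;T⁻¹])) :
    ∃ tp : ℤ → R, tp 0 = 1 ∧ (∀ m n, tp (m + n) = tp m * tp n) ∧ (∀ m, tp m ∈ O) ∧
      (∀ x ∈ O, ∀ y ∈ O, x * y = 1 → ∃ c : ℂ, c ≠ 0 ∧ ∃ m : ℤ, x = c • tp m) ∧
      (∀ (c c' : ℂ) (m m' : ℤ), c ≠ 0 → c • tp m = c' • tp m' → m = m') ∧
      (∀ f ∈ O, f ∈ Algebra.adjoin ℂ {tp 1, tp (-1)}) := by
  obtain ⟨e⟩ := h
  have hsm : ∀ (c : ℂ) (m : ℤ), e (c • e.symm (T m)) = C c * T m := by
    intro c m
    rw [map_smul, AlgEquiv.apply_symm_apply, smul_eq_C_mul]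
  refine ⟨fun m => (e.symm (T m) : R), ?_, ?_, ?_, ?_, ?_, ?_⟩
  · simp
  · intro m n
    change (e.symm (T (m + n)) : R) = (e.symm (T m) : R) * (e.symm (T n) : R)
    rw [T_add, map_mul]
    push_cast
    rfl
  · intro m
    exact (e.symm (T m)).2
  · intro x hx y hy hxy
    have h1 : e ⟨x, hx⟩ * e ⟨y, hy⟩ = 1 := by
      rw [← map_mul, ← map_one e]
      congr 1
      exact Subtype.ext hxy
    obtain ⟨c, hc, m, hm⟩ := lau_unit h1
    refine ⟨c, hc, m, ?_⟩
    rw [← hsm] at hm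
    exact congrArg Subtype.val (e.injective hm)
  · intro c c' m m' hc h
    refine lau_inj hc (c' := c') ?_
    rw [← hsm, ← hsm]
    congr 1
    exact Subtype.ext h
  · intro f hf
    have h1 : ∀ F : ℂ[T;T⁻¹], (e.symm F : R) ∈
        Algebra.adjoin ℂ {(e.symm (T 1) : R), (e.symm (T (-1)) : R)} := by
      intro F
      have hT1 : (e.symm (T 1) : R) ∈
          Algebra.adjoin ℂ {(e.symm (T 1) : R), (e.symm (T (-1)) : R)} :=
        Algebra.subset_adjoin (by simp)
      have hT2 : (e.symm (T (-1)) : R) ∈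
          Algebra.adjoin ℂ {(e.symm (T 1) : R), (e.symm (T (-1)) : R)} :=
        Algebra.subset_adjoin (by simp)
      induction F using LaurentPolynomial.induction_on with
      | h_C a =>
        have : e.symm (C a) = algebraMap ℂ O a := by
          rw [C_eq_algebraMap, AlgEquiv.commutes]
        rw [this]
        exact Subalgebra.algebraMap_mem _ a
      | h_add hp hq =>
        rw [map_add]; push_cast
        exact add_mem hp hq
      | h_C_mul_T n a h =>
        rw [T_add, ← mul_assoc, map_mul]; push_cast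
        exact mul_mem h hT1
      | h_C_mul_T_Z n a h =>
        rw [T_sub, ← mul_assoc, map_mul]; push_cast
        exact mul_mem h hT2
    have h2 := h1 (e ⟨f, hf⟩)
    rw [AlgEquiv.symm_apply_apply] at h2
    exact h2

end Pool.Agent.Helper43.RS
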